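import Pool.Agent.AHM.StmtProof

/-!
# MP_27e6ae_ag : an almost holomorphic map satisfying (A) which is not birationally equivalent to
a morphism

The negated form of Q1.  The example is `X = (E × ℙ¹ × ℙ¹) / ±1`, where the involution is the
translation by a point of order two on the elliptic curve `E` and `-1` on both projective lines,
`Y` is the minimal resolution of `(ℙ¹ × ℙ¹) / ±1` and `Γ` is the closure of the graph of the
projection `X ⇢ Y`.  Assumption (A) holds with `D = 0`: the pair `(Γ, 0)` is klt, and
`π_* K_{Γ/Y} = 0`, since `K_{Γ/Y}` has multiplicity zero along all prime divisors which are not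
`π`-exceptional.
-/

set_option autoImplicit false

namespace Pool.Agent.Results.MP_27e6ae_ag.NotRegularisable

open Pool.Agent.AHM Pool.Agent.AHM.Stmt

/-- There are smooth projective complex varieties `X`, `Y`, `Γ`, an almost holomorphic map
`φ : X ⇢ Y` and a resolution `π : Γ ⟶ X`, `φΓ = φ ∘ π : Γ ⟶ Y` which satisfy Assumption (A)
(even `π_* K_{Γ/Y} = 0`), such that `φ` is not birationally equivalent to a morphism. -/
theorem result :
    ∃ (X Y Γ : SmoothProjVar) (φ : RMap X Y) (π : Mor Γ X) (φΓ : Mor Γ Y),
      IsAlmostHolomorphic φ.hom ∧ Resolves π φ φΓ ∧ ConnectedFibres φΓ ∧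
        PushforwardZero π φΓ 3 2 ∧ AssumptionA π φΓ ∧ ¬ EquivalentToMorphism φ :=
  Pool.Agent.AHM.Stmt.main

end Pool.Agent.Results.MP_27e6ae_ag.NotRegularisable
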